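import Pool.Agent.E8helper19.EN.Stm3
import Pool.Agent.E8helper41.EN.Fub

/-!
# Project EN, piece EN6 (S_INV): the energy law determines the law
-/

set_option autoImplicit false

open MeasureTheory Filter Topology Set
open scoped ContDiff ENNReal NNReal Real
open Pool.Agent.E8helper19.EN

namespace Pool.Agent.E8helper54.EN

theorem t_INV : S_INV := by
  intro ν μ hν hμ hνx hμx huniv hg
  -- test functions
  have h1 : ∀ G : ℝ → ℝ, ContDiff ℝ ∞ G → HasCompactSupport G →
      ∫ x, x * G x ∂ν = ∫ x, x * G x ∂μ := by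
    intro G hG hGc
    have hG1 : ContDiff ℝ 1 G := hG.of_le (by exact_mod_cast le_top)
    have hd : Continuous (deriv G) := hG1.continuous_deriv le_rfl
    have hdc : HasCompactSupport (deriv G) := hGc.deriv
    have e : (fun x => ∫ t in Iic x, deriv G t) = G := by
      funext x
      exact HasCompactSupport.integral_Iic_deriv_eq hG1 hGc x
    have h2 := ((Pool.Agent.E8helper41.EN.t_FUB ν hν hνx).2.2 (deriv G) hd hdc).2
    have h3 := ((Pool.Agent.E8helper41.EN.t_FUB μ hμ hμx).2.2 (deriv G) hd hdc).2
    have e' : ∀ x, ∫ t in Iic x, deriv G t = G x := fun x => congrFun e x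
    simp only [e'] at h2 h3
    rw [h2, h3]
    exact hg (deriv G) hd hdc
  -- the common dominating measure
  have hνl : ν ≪ ν + μ := Measure.absolutelyContinuous_of_le (Measure.le_add_right le_rfl)
  have hμl : μ ≪ ν + μ := Measure.absolutelyContinuous_of_le (Measure.le_add_left le_rfl)
  have h4 : ∀ᵐ x ∂(ν + μ), (ν.rnDeriv (ν + μ) x).toReal • x = (μ.rnDeriv (ν + μ) x).toReal • x := by
    apply ae_eq_of_integral_contDiff_smul_eq
    · exact ((integrable_rnDeriv_smul_iff hνl).2 hνx).locallyIntegrable
    · exact ((integrable_rnDeriv_smul_iff hμl).2 hμx).locallyIntegrable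
    · intro G hG hGc
      have a1 : ∀ κ : Measure ℝ, (∫ x, G x • ((κ.rnDeriv (ν + μ) x).toReal • x) ∂(ν + μ)) =
          ∫ x, (κ.rnDeriv (ν + μ) x).toReal • (x * G x) ∂(ν + μ) := by
        intro κ
        congr 1
        funext x
        simp only [smul_eq_mul]
        ring
      rw [a1, a1, integral_rnDeriv_smul hνl, integral_rnDeriv_smul hμl]
      exact h1 G hG hGc
  have h5 : ∀ s : Set ℝ, MeasurableSet s → (0 : ℝ) ∉ s → ν.real s = μ.real s := by
    intro s hs h0
    rw [← Measure.setIntegral_toReal_rnDeriv hνl s, ← Measure.setIntegral_toReal_rnDeriv hμl s]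
    apply setIntegral_congr_ae hs
    filter_upwards [h4] with x hx hxs
    have hx0 : x ≠ 0 := fun e => h0 (e ▸ hxs)
    simp only [smul_eq_mul] at hx
    exact mul_right_cancel₀ hx0 hx
  have hu : ν.real univ = μ.real univ := by
    unfold Measure.real
    rw [huniv]
  have h6 : ∀ s : Set ℝ, MeasurableSet s → ν.real s = μ.real s := by
    intro s hs
    by_cases h0 : (0 : ℝ) ∈ s
    · have h7 := h5 sᶜ hs.compl (fun h => h h0)
      rw [measureReal_compl hs, measureReal_compl hs, hu] at h7
      linarith
    · exact h5 s hs h0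
  ext s hs
  exact (ENNReal.toReal_eq_toReal_iff' (measure_ne_top ν s) (measure_ne_top μ s)).1 (h6 s hs)

end Pool.Agent.E8helper54.EN
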